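import Pool.Agent.Helper95.AF.Defs

/-! # Project AF: the free block, mean of `‖B‖ ^ (-p)` over a square (part (G) of `core`) -/

set_option autoImplicit false
open MeasureTheory Real Set Filter Topology
open scoped ENNReal

namespace Pool.Agent.Helper44.AF

open Pool.Agent.Helper18.UC (nn LL sqo)
open Pool.Agent.Helper95.AF

theorem det_mt (a x : ℝ) : (mt a x).det = 1 := by
  simp [Pool.Agent.Helper95.AF.mt, Matrix.det_fin_two]

theorem det_pM (a : ℝ) (b : ℕ → ℝ) (n : ℕ) (q : ℝ × ℝ) : (pM a b n q).det = 1 := by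
  induction n with
  | zero => simp [pM]
  | succ n ih => rw [pM, Matrix.det_mul, det_mt, ih, one_mul]

theorem nn_ge1_of_det {B : Matrix (Fin 2) (Fin 2) ℝ} (h : B.det = 1) : 1 ≤ nn B := by
  rw [Matrix.det_fin_two] at h
  have h1 : 1 ≤ |B 0 0| * |B 1 1| + |B 0 1| * |B 1 0| := by
    rw [← abs_mul, ← abs_mul]
    have h3 := le_abs_self (B 0 0 * B 1 1)
    have h4 := neg_abs_le (B 0 1 * B 1 0)
    linarith
  have h2 : 1 ≤ nn B ^ 2 := by
    unfold nn
    have e := fun i j : Fin 2 => abs_nonneg (B i j)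
    nlinarith [mul_nonneg (e 0 0) (e 0 1), mul_nonneg (e 0 0) (e 1 0), mul_nonneg (e 0 0) (e 1 1),
      mul_nonneg (e 0 1) (e 1 0), mul_nonneg (e 0 1) (e 1 1), mul_nonneg (e 1 0) (e 1 1),
      sq_nonneg (|B 0 0|), sq_nonneg (|B 0 1|), sq_nonneg (|B 1 0|), sq_nonneg (|B 1 1|)]
  have h0 : 0 ≤ nn B := Pool.Agent.Helper18.UC.nn_nonneg B
  nlinarith

theorem nn_ge1 (a : ℝ) (b : ℕ → ℝ) (n : ℕ) (q : ℝ × ℝ) : 1 ≤ nn (pM a b n q) :=
  nn_ge1_of_det (det_pM a b n q)

theorem cont_mt (a : ℝ) : Continuous (mt a) := by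
  refine continuous_matrix fun i j => ?_
  fin_cases i <;> fin_cases j <;> simp [Pool.Agent.Helper95.AF.mt] <;> fun_prop

theorem cont_po (a : ℝ) (b : ℕ → ℝ) (n : ℕ) : Continuous (po a b n) := by
  induction n with
  | zero => exact continuous_id
  | succ n ih =>
    have h : po a b (n + 1) = fun q => st a (b n) (po a b n q) := by funext q; rw [po]
    rw [h]
    unfold st
    fun_prop

theorem cont_pM (a : ℝ) (b : ℕ → ℝ) (n : ℕ) : Continuous (pM a b n) := by
  induction n with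
  | zero => 
    have h : pM a b 0 = fun _ => 1 := by funext q; rw [pM]
    rw [h]; exact continuous_const
  | succ n ih =>
    have h : pM a b (n + 1) = fun q => mt a (po a b n q).1 * pM a b n q := by funext q; rw [pM]
    rw [h]
    exact ((cont_mt a).comp (continuous_fst.comp (cont_po a b n))).matrix_mul ih

theorem cont_nn : Continuous nn := by
  unfold nn
  fun_prop

theorem meas_ip (p : ℝ) : Measurable (ip p) := by
  unfold ip
  exact ENNReal.measurable_ofReal.pow_const _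

theorem meas_bad (a : ℝ) (b : ℕ → ℝ) (n : ℕ) (r : ℝ) : MeasurableSet (bad a b n r) := by
  unfold bad
  exact measurableSet_lt (Real.measurable_log.comp (cont_nn.comp (cont_pM a b n)).measurable) measurable_const

theorem ip_anti {p x y : ℝ} (hp : 0 ≤ p) (h : x ≤ y) : ip p y ≤ ip p x := by
  unfold ip
  rw [ENNReal.rpow_neg, ENNReal.rpow_neg]
  exact ENNReal.inv_le_inv.2 (ENNReal.rpow_le_rpow (ENNReal.ofReal_le_ofReal h) hp)

theorem ip_pos {p x : ℝ} (hx : 0 < x) : ip p x = ENNReal.ofReal (x ^ (-p)) := by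
  unfold ip
  rw [ENNReal.ofReal_rpow_of_pos hx]

theorem ip_le_one {p x : ℝ} (hp : 0 ≤ p) (hx : 1 ≤ x) : ip p x ≤ 1 := by
  refine (ip_anti hp hx).trans ?_
  rw [ip_pos one_pos]; simp

theorem ip_exp {p r : ℝ} : ip p (Real.exp r) = ENNReal.ofReal (Real.exp (-(p * r))) := by
  rw [ip_pos (Real.exp_pos r), ← Real.exp_mul]
  congr 2; ring

theorem vol_sqo (c : ℝ × ℝ) {ρ : ℝ} (hρ : 0 ≤ ρ) : volume (sqo c ρ) = ENNReal.ofReal (ρ ^ 2) := by
  unfold sqo
  rw [Measure.volume_eq_prod, Measure.prod_prod, Real.volume_Ico, Real.volume_Ico, ← ENNReal.ofReal_mul (by linarith)]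
  congr 1; ring

/-- **(G)** -/
theorem good_int {a : ℝ} {c : ℕ → ℝ} {n : ℕ} {ρ δ p r : ℝ} (hρ : 0 < ρ) (hp : 0 < p) (_hr : 0 ≤ r) (_hδ : 0 ≤ δ)
    (hδ1 : δ ≤ Real.exp (-(p * r))) (hD : Den a c n ρ δ r) (c0 : ℝ × ℝ) :
    ∫⁻ z in sqo c0 ρ, ip p (nn (pM a c n z)) ≤ ENNReal.ofReal (2 * ρ ^ 2 * Real.exp (-(p * r))) := by
  have hpt : ∀ z, ip p (nn (pM a c n z)) ≤
      (bad a c n r).indicator 1 z + ENNReal.ofReal (Real.exp (-(p * r))) := by
    intro z
    by_cases hz : z ∈ bad a c n r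
    · rw [indicator_of_mem hz]
      exact (ip_le_one hp.le (nn_ge1 a c n z)).trans le_self_add
    · have h1 : r ≤ Real.log (nn (pM a c n z)) := not_lt.1 hz
      have h2 : Real.exp r ≤ nn (pM a c n z) := by
        have h3 := nn_ge1 a c n z
        calc Real.exp r ≤ Real.exp (Real.log (nn (pM a c n z))) := Real.exp_le_exp.2 h1
          _ = _ := Real.exp_log (by linarith)
      exact ((ip_anti hp.le h2).trans ip_exp.le).trans le_add_self
  calc ∫⁻ z in sqo c0 ρ, ip p (nn (pM a c n z))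
      ≤ ∫⁻ z in sqo c0 ρ, ((bad a c n r).indicator 1 z + ENNReal.ofReal (Real.exp (-(p * r)))) :=
        lintegral_mono hpt
    _ = volume (bad a c n r ∩ sqo c0 ρ) + ENNReal.ofReal (Real.exp (-(p * r))) * volume (sqo c0 ρ) := by
        rw [lintegral_add_right _ measurable_const, lintegral_indicator_one (meas_bad a c n r),
          Measure.restrict_apply (meas_bad a c n r), lintegral_const, Measure.restrict_apply MeasurableSet.univ,
          univ_inter]
    _ ≤ ENNReal.ofReal (δ * ρ ^ 2) + ENNReal.ofReal (Real.exp (-(p * r))) * ENNReal.ofReal (ρ ^ 2) := by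
        rw [vol_sqo c0 hρ.le]
        exact add_le_add (hD c0) le_rfl
    _ ≤ ENNReal.ofReal (Real.exp (-(p * r)) * ρ ^ 2) + ENNReal.ofReal (Real.exp (-(p * r)) * ρ ^ 2) := by
        refine add_le_add (ENNReal.ofReal_le_ofReal (mul_le_mul_of_nonneg_right hδ1 (by positivity))) ?_
        rw [ENNReal.ofReal_mul (Real.exp_nonneg _)]
    _ = ENNReal.ofReal (2 * ρ ^ 2 * Real.exp (-(p * r))) := by
        rw [← ENNReal.ofReal_add (by positivity) (by positivity)]
        congr 1; ring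

end Pool.Agent.Helper44.AF
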