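import Pool.Agent.Helper44.AF.Good

/-! # Project AF: five noise steps, change of variables -/

set_option autoImplicit false
open MeasureTheory Real Set Filter Topology
open scoped ENNReal

namespace Pool.Agent.Helper44.AF

open Pool.Agent.Helper18.UC (nn LL sqo)
open Pool.Agent.Helper95.AF

/-- the change of variables `x = u + s t` -/
theorem shiftI {s u : ℝ} (hs : 0 < s) (G : ℝ → ℝ≥0∞) :
    ∫⁻ t, G (u + s * t) ∂un = ENNReal.ofReal s⁻¹ * ∫⁻ x in Icc u (u + s), G x := by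
  set F : ℝ → ℝ≥0∞ := (Icc u (u + s)).indicator G with hF
  have h1 : ∫⁻ t, G (u + s * t) ∂un = ∫⁻ t, F (u + s * t) := by
    unfold un
    rw [← lintegral_indicator measurableSet_Icc]
    refine lintegral_congr fun t => ?_
    by_cases ht : t ∈ Icc (0 : ℝ) 1
    · have h2 : u + s * t ∈ Icc u (u + s) := ⟨by nlinarith [ht.1], by nlinarith [ht.2]⟩
      rw [indicator_of_mem ht, hF, indicator_of_mem h2]
    · have h2 : u + s * t ∉ Icc u (u + s) := fun h => ht ⟨by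
        have := h.1
        by_contra h3
        nlinarith [mul_pos hs (sub_pos.2 (not_le.1 h3))], by
        have := h.2
        by_contra h3
        nlinarith [mul_pos hs (sub_pos.2 (not_le.1 h3))]⟩
      rw [indicator_of_notMem ht, hF, indicator_of_notMem h2]
  have h2 : ∫⁻ x, F x = ENNReal.ofReal s * ∫⁻ t, F (u + s * t) := by
    rw [← lintegral_add_left_eq_self F u]
    conv_lhs => rw [← Real.smul_map_volume_mul_left hs.ne']
    have h4 : ∫⁻ x, F (u + x) ∂(Measure.map (fun x => s * x) volume) = ∫⁻ t, F (u + s * t) :=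
      (Homeomorph.mulLeft₀ s hs.ne').measurableEmbedding.lintegral_map fun x => F (u + x)
    rw [lintegral_smul_measure, h4, abs_of_pos hs]
    rfl
  have h3 : ENNReal.ofReal s⁻¹ * ENNReal.ofReal s = 1 := by
    rw [← ENNReal.ofReal_mul (by positivity), inv_mul_cancel₀ hs.ne', ENNReal.ofReal_one]
  rw [h1, ← lintegral_indicator measurableSet_Icc, ← hF, h2, ← mul_assoc, h3, one_mul]

/-- one step with a bound for the rest -/
theorem stepI {s R c E u : ℝ} {G H : ℝ → ℝ≥0∞} {K : ℝ≥0∞} (hs : 0 < s) (hu : |u - c| ≤ E - s) (hER : E ≤ R)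
    (hK : K ≠ ∞) (hGH : ∀ x, |x - c| ≤ E → G x ≤ K * H x) :
    ∫⁻ t, G (u + s * t) ∂un ≤ ENNReal.ofReal s⁻¹ * K * ∫⁻ x in Icc (c - R) (c + R), H x := by
  rw [shiftI hs, mul_assoc]
  refine mul_le_mul_right ?_ _
  have hsub : Icc u (u + s) ⊆ Icc (c - R) (c + R) := by
    intro x hx
    have := abs_le.1 hu
    exact ⟨by linarith [hx.1, this.1], by linarith [hx.2, this.2]⟩
  rw [← lintegral_const_mul' K _ hK]
  calc ∫⁻ x in Icc u (u + s), G x ≤ ∫⁻ x in Icc u (u + s), K * H x := by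
        refine setLIntegral_mono' measurableSet_Icc fun x hx => hGH x ?_
        have := abs_le.1 hu
        exact abs_le.2 ⟨by linarith [hx.1, this.1], by linarith [hx.2, this.2]⟩
    _ ≤ ∫⁻ x in Icc (c - R) (c + R), K * H x := lintegral_mono_set hsub

/-- the next position -/
noncomputable def cen (a β x y : ℝ) : ℝ := 2 * x - y + a * Real.sin (2 * π * x) + β

theorem cen_near {a β E s x y c c' : ℝ} (hx : |x - c| ≤ E) (hy : |y - c'| ≤ E) (hsE : s ≤ E) :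
    |cen a β x y - cen a β c c'| ≤ 10 * (|a| + 1) * E - s := by
  have hE : 0 ≤ E := (abs_nonneg _).trans hx
  have h1 : |Real.sin (2 * π * x) - Real.sin (2 * π * c)| ≤ 2 * π * E := by
    refine (Real.abs_sin_sub_sin_le _ _).trans ?_
    rw [← mul_sub, abs_mul, abs_of_pos (by positivity : (0 : ℝ) < 2 * π)]
    exact mul_le_mul_of_nonneg_left hx (by positivity)
  have h2 : cen a β x y - cen a β c c' =
      2 * (x - c) - (y - c') + a * (Real.sin (2 * π * x) - Real.sin (2 * π * c)) := by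
    unfold cen; ring
  have h3 : |a * (Real.sin (2 * π * x) - Real.sin (2 * π * c))| ≤ |a| * (2 * π * E) := by
    rw [abs_mul]; exact mul_le_mul_of_nonneg_left h1 (abs_nonneg _)
  have h4 : |2 * (x - c) - (y - c') + a * (Real.sin (2 * π * x) - Real.sin (2 * π * c))| ≤
      2 * E + E + |a| * (2 * π * E) := by
    refine (abs_add_le _ _).trans (add_le_add ((abs_sub _ _).trans (add_le_add ?_ hy)) h3)
    rw [abs_mul, abs_two]; linarith
  have hpi : π < 3.15 := Real.pi_lt_d2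
  have h5 : |a| * (2 * π * E) ≤ |a| * (2 * 3.15 * E) := by
    refine mul_le_mul_of_nonneg_left ?_ (abs_nonneg _)
    nlinarith
  have h6 : 0 ≤ |a| * E := mul_nonneg (abs_nonneg _) hE
  rw [h2]
  linarith

/-- five steps -/
theorem five_nest {a s R : ℝ} (hs : 0 < s) (x0 y0 b0 b1 b2 b3 b4 : ℝ) (hR : (10 * (|a| + 1)) ^ 4 * s ≤ R) :
    ∃ c1 c2 c3 c4 c5 : ℝ, ∀ F : ℝ → ℝ → ℝ → ℝ → ℝ → ℝ≥0∞,
    ∫⁻ t0, (fun x1 => ∫⁻ t1, (fun x2 => ∫⁻ t2, (fun x3 => ∫⁻ t3, (fun x4 => ∫⁻ t4,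
      F x1 x2 x3 x4 (cen a b4 x4 x3 + s * t4) ∂un) (cen a b3 x3 x2 + s * t3) ∂un) (cen a b2 x2 x1 + s * t2) ∂un)
        (cen a b1 x1 x0 + s * t1) ∂un) (cen a b0 x0 y0 + s * t0) ∂un ≤
      ENNReal.ofReal s⁻¹ ^ 5 *
        ∫⁻ x1 in Icc (c1 - R) (c1 + R), ∫⁻ x2 in Icc (c2 - R) (c2 + R), ∫⁻ x3 in Icc (c3 - R) (c3 + R),
          ∫⁻ x4 in Icc (c4 - R) (c4 + R), ∫⁻ x5 in Icc (c5 - R) (c5 + R), F x1 x2 x3 x4 x5 := by
  set A := 10 * (|a| + 1) with hA
  have hA1 : 1 ≤ A := by have := abs_nonneg a; rw [hA]; linarith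
  set c1 := cen a b0 x0 y0 with hc1
  set c2 := cen a b1 c1 x0 with hc2
  set c3 := cen a b2 c2 c1 with hc3
  set c4 := cen a b3 c3 c2 with hc4
  set c5 := cen a b4 c4 c3 with hc5
  refine ⟨c1, c2, c3, c4, c5, fun F => ?_⟩
  have hmono : ∀ i j : ℕ, i ≤ j → A ^ i * s ≤ A ^ j * s := fun i j h =>
    mul_le_mul_of_nonneg_right (pow_le_pow_right₀ hA1 h) hs.le
  have hsE : ∀ i : ℕ, s ≤ A ^ i * s := fun i => by simpa using hmono 0 i (Nat.zero_le _)
  have hE : ∀ i : ℕ, i ≤ 4 → A ^ i * s ≤ R := fun i hi => (hmono i 4 hi).trans hR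
  have hnx : ∀ (i : ℕ) (β x y c c' : ℝ), |x - c| ≤ A ^ i * s → |y - c'| ≤ A ^ i * s →
      |cen a β x y - cen a β c c'| ≤ A ^ (i + 1) * s - s := by
    intro i β x y c c' hx hy
    have := cen_near (a := a) (β := β) hx hy (hsE i)
    rw [← hA] at this
    calc _ ≤ A * (A ^ i * s) - s := this
      _ = _ := by ring
  have hK : ENNReal.ofReal s⁻¹ ≠ ∞ := ENNReal.ofReal_ne_top
  have e5 : ENNReal.ofReal s⁻¹ ^ 5 = ENNReal.ofReal s⁻¹ * (ENNReal.ofReal s⁻¹ * (ENNReal.ofReal s⁻¹ *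
      (ENNReal.ofReal s⁻¹ * (ENNReal.ofReal s⁻¹ * 1)))) := by ring
  rw [e5]
  -- step 1
  refine stepI (E := A ^ 0 * s) (c := c1) (u := c1) (G := fun x1 => ∫⁻ t1, (fun x2 => ∫⁻ t2, (fun x3 =>
      ∫⁻ t3, (fun x4 => ∫⁻ t4, F x1 x2 x3 x4 (cen a b4 x4 x3 + s * t4) ∂un) (cen a b3 x3 x2 + s * t3) ∂un)
        (cen a b2 x2 x1 + s * t2) ∂un) (cen a b1 x1 x0 + s * t1) ∂un) hs (by simp) (hE 0 (by norm_num)) ?_ fun x1 h1 => ?_
  · finiteness
  refine stepI (E := A ^ 1 * s) (c := c2) (G := fun x2 => ∫⁻ t2, (fun x3 =>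
      ∫⁻ t3, (fun x4 => ∫⁻ t4, F x1 x2 x3 x4 (cen a b4 x4 x3 + s * t4) ∂un) (cen a b3 x3 x2 + s * t3) ∂un)
        (cen a b2 x2 x1 + s * t2) ∂un) hs (hnx 0 b1 x1 x0 c1 x0 h1 (by simp; positivity)) (hE 1 (by norm_num)) ?_ fun x2 h2 => ?_
  · finiteness
  have h1' := h1.trans (hmono 0 1 (by norm_num))
  refine stepI (E := A ^ 2 * s) (c := c3) (G := fun x3 =>
      ∫⁻ t3, (fun x4 => ∫⁻ t4, F x1 x2 x3 x4 (cen a b4 x4 x3 + s * t4) ∂un) (cen a b3 x3 x2 + s * t3) ∂un) hs (hnx 1 b2 x2 x1 c2 c1 h2 h1') (hE 2 (by norm_num)) ?_ fun x3 h3 => ?_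
  · finiteness
  have h2' := h2.trans (hmono 1 2 (by norm_num))
  refine stepI (E := A ^ 3 * s) (c := c4)
    (G := fun x4 => ∫⁻ t4, F x1 x2 x3 x4 (cen a b4 x4 x3 + s * t4) ∂un) hs (hnx 2 b3 x3 x2 c3 c2 h3 h2') (hE 3 (by norm_num)) ?_ fun x4 h4 => ?_
  · finiteness
  have h3' := h3.trans (hmono 2 3 (by norm_num))
  refine stepI (E := A ^ 4 * s) (c := c5) (G := fun x5 => F x1 x2 x3 x4 x5) hs (hnx 3 b4 x4 x3 c4 c3 h4 h3') (hE 4 (by norm_num)) ?_ fun x5 _ => ?_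
  · finiteness
  rw [one_mul]

end Pool.Agent.Helper44.AF
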