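import Pool.Agent.Helper44.AF.Nest

/-! # Project AF: density of the positions after five noise steps (part (D) of `core`) -/

set_option autoImplicit false
open MeasureTheory Real Set Filter Topology
open scoped ENNReal

namespace Pool.Agent.Helper44.AF

open Pool.Agent.Helper18.UC (nn LL sqo)
open Pool.Agent.Helper95.AF

theorem up5_lt {b : ℕ → ℝ} {m : ℕ} {s : ℝ} {t : Fin 5 → ℝ} {j : ℕ} (h : j < m) : up5 b m s t j = b j := by
  unfold up5
  rw [dif_neg (by omega), add_zero]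

theorem up5_ge {b : ℕ → ℝ} {m : ℕ} {s : ℝ} {t : Fin 5 → ℝ} {j : ℕ} (h : m + 5 ≤ j) : up5 b m s t j = b j := by
  unfold up5
  rw [dif_neg (by omega), add_zero]

theorem up5_add (b : ℕ → ℝ) (m : ℕ) (s : ℝ) (t : Fin 5 → ℝ) (k : ℕ) (hk : k < 5) :
    up5 b m s t (m + k) = b (m + k) + s * t ⟨k, hk⟩ := by
  unfold up5
  rw [dif_pos (by omega)]
  congr 3
  exact Fin.ext (by simp)

theorem po_congr {a : ℝ} {b b' : ℕ → ℝ} {m : ℕ} {q : ℝ × ℝ} (h : ∀ j < m, b j = b' j) : po a b m q = po a b' m q := by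
  induction m with
  | zero => simp [po]
  | succ m ih => rw [po, po, ih fun j hj => h j (by omega), h m (by omega)]

theorem st_cen (a β s t x y : ℝ) : st a (β + s * t) (x, y) = (cen a β x y + s * t, x) := by
  unfold st cen
  simp only [Prod.mk.injEq, and_true]
  ring

theorem five_po (a s : ℝ) (m : ℕ) (b : ℕ → ℝ) (q : ℝ × ℝ) (t : Fin 5 → ℝ) {x0 y0 x1 x2 x3 x4 x5 : ℝ}
    (h0 : po a b m q = (x0, y0)) (h1 : x1 = cen a (b m) x0 y0 + s * t 0) (h2 : x2 = cen a (b (m + 1)) x1 x0 + s * t 1)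
    (h3 : x3 = cen a (b (m + 2)) x2 x1 + s * t 2) (h4 : x4 = cen a (b (m + 3)) x3 x2 + s * t 3)
    (h5 : x5 = cen a (b (m + 4)) x4 x3 + s * t 4) :
    po a (up5 b m s t) (m + 1) q = (x1, x0) ∧ po a (up5 b m s t) (m + 2) q = (x2, x1) ∧
      po a (up5 b m s t) (m + 3) q = (x3, x2) ∧ po a (up5 b m s t) (m + 4) q = (x4, x3) ∧
      po a (up5 b m s t) (m + 5) q = (x5, x4) := by
  have e0 : po a (up5 b m s t) m q = (x0, y0) := by
    rw [po_congr fun j hj => up5_lt hj, h0]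
  have f0 := up5_add b m s t 0 (by norm_num)
  have f1 := up5_add b m s t 1 (by norm_num)
  have f2 := up5_add b m s t 2 (by norm_num)
  have f3 := up5_add b m s t 3 (by norm_num)
  have f4 := up5_add b m s t 4 (by norm_num)
  rw [add_zero] at f0
  have e1 : po a (up5 b m s t) (m + 1) q = (x1, x0) := by
    rw [po, e0, f0, st_cen, h1]; rfl
  have e2 : po a (up5 b m s t) (m + 2) q = (x2, x1) := by
    rw [po, e1, f1, st_cen, h2]; rfl
  have e3 : po a (up5 b m s t) (m + 3) q = (x3, x2) := by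
    rw [po, e2, f2, st_cen, h3]; rfl
  have e4 : po a (up5 b m s t) (m + 4) q = (x4, x3) := by
    rw [po, e3, f3, st_cen, h4]; rfl
  have e5 : po a (up5 b m s t) (m + 5) q = (x5, x4) := by
    rw [po, e4, f4, st_cen, h5]; rfl
  exact ⟨e1, e2, e3, e4, e5⟩

/-- **(D)** -/
theorem five_plane (a ρ : ℝ) (m : ℕ) (b : ℕ → ℝ) (q : ℝ × ℝ) (_ha : 1 ≤ |a|) (h0 : 0 < ρ) (_h1 : ρ ≤ 1) :
    ∃ (c : Fin 3 → ℝ) (c0 : ℝ × ℝ), ∀ Φ : ℝ → ℝ → ℝ → ℝ × ℝ → ℝ≥0∞,
      Measurable (fun p : ℝ × ℝ × ℝ × (ℝ × ℝ) => Φ p.1 p.2.1 p.2.2.1 p.2.2.2) →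
      ∫⁻ t, Φ (po a (up5 b m (ρ / (10 * (|a| + 1)) ^ 5) t) (m + 1) q).1
        (po a (up5 b m (ρ / (10 * (|a| + 1)) ^ 5) t) (m + 2) q).1
        (po a (up5 b m (ρ / (10 * (|a| + 1)) ^ 5) t) (m + 3) q).1
        (po a (up5 b m (ρ / (10 * (|a| + 1)) ^ 5) t) (m + 5) q) ∂un5 ≤
      ENNReal.ofReal ((10 * (|a| + 1)) ^ 25 / ρ ^ 5) * ∫⁻ w in sqo c0 ρ,
        ∫⁻ x₁ in Icc (c 0 - ρ / 2) (c 0 + ρ / 2), ∫⁻ x₂ in Icc (c 1 - ρ / 2) (c 1 + ρ / 2),
          ∫⁻ x₃ in Icc (c 2 - ρ / 2) (c 2 + ρ / 2), Φ x₁ x₂ x₃ w := by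
  set A := 10 * (|a| + 1) with hA
  have hA1 : 10 ≤ A := by have := abs_nonneg a; rw [hA]; linarith
  have hA0 : 0 < A := by linarith
  set s := ρ / A ^ 5 with hs'
  have hs : 0 < s := by positivity
  set R := ρ / 4 with hR'
  have hR : (10 * (|a| + 1)) ^ 4 * s ≤ R := by
    rw [← hA]
    have : A ^ 4 * s = ρ / A := by rw [hs']; field_simp
    rw [this, hR']
    exact div_le_div_of_nonneg_left h0.le (by norm_num) (by linarith)
  obtain ⟨x0, y0, hx0⟩ : ∃ x0 y0, po a b m q = (x0, y0) := ⟨_, _, rfl⟩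
  obtain ⟨c1, c2, c3, c4, c5, H⟩ := five_nest hs x0 y0 (b m) (b (m + 1)) (b (m + 2)) (b (m + 3)) (b (m + 4)) hR
  refine ⟨![c1, c2, c3], (c5 - R, c4 - R), fun Φ hΦ => ?_⟩
  -- the positions as functions of the noise
  set X1 : (Fin 5 → ℝ) → ℝ := fun t => cen a (b m) x0 y0 + s * t 0 with hX1
  set X2 : (Fin 5 → ℝ) → ℝ := fun t => cen a (b (m + 1)) (X1 t) x0 + s * t 1 with hX2
  set X3 : (Fin 5 → ℝ) → ℝ := fun t => cen a (b (m + 2)) (X2 t) (X1 t) + s * t 2 with hX3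
  set X4 : (Fin 5 → ℝ) → ℝ := fun t => cen a (b (m + 3)) (X3 t) (X2 t) + s * t 3 with hX4
  set X5 : (Fin 5 → ℝ) → ℝ := fun t => cen a (b (m + 4)) (X4 t) (X3 t) + s * t 4 with hX5
  have hcen : Continuous fun p : ℝ × ℝ × ℝ => cen a p.1 p.2.1 p.2.2 := by unfold cen; fun_prop
  have m1 : Continuous X1 := by rw [hX1]; fun_prop
  have m2 : Continuous X2 := by
    rw [hX2]
    exact (hcen.comp (by fun_prop : Continuous fun t : Fin 5 → ℝ => (b (m + 1), X1 t, x0))).add (by fun_prop)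
  have m3 : Continuous X3 := by
    rw [hX3]
    exact (hcen.comp (by fun_prop : Continuous fun t : Fin 5 → ℝ => (b (m + 2), X2 t, X1 t))).add (by fun_prop)
  have m4 : Continuous X4 := by
    rw [hX4]
    exact (hcen.comp (by fun_prop : Continuous fun t : Fin 5 → ℝ => (b (m + 3), X3 t, X2 t))).add (by fun_prop)
  have m5 : Continuous X5 := by
    rw [hX5]
    exact (hcen.comp (by fun_prop : Continuous fun t : Fin 5 → ℝ => (b (m + 4), X4 t, X3 t))).add (by fun_prop)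
  have hmeas : Measurable fun t => Φ (X1 t) (X2 t) (X3 t) (X5 t, X4 t) :=
    hΦ.comp (by fun_prop : Continuous fun t => (X1 t, X2 t, X3 t, (X5 t, X4 t))).measurable
  have hpo : ∀ t, po a (up5 b m s t) (m + 1) q = (X1 t, x0) ∧ po a (up5 b m s t) (m + 2) q = (X2 t, X1 t) ∧
      po a (up5 b m s t) (m + 3) q = (X3 t, X2 t) ∧ po a (up5 b m s t) (m + 4) q = (X4 t, X3 t) ∧
      po a (up5 b m s t) (m + 5) q = (X5 t, X4 t) := fun t => five_po a s m b q t hx0 rfl rfl rfl rfl rfl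
  calc ∫⁻ t, Φ (po a (up5 b m s t) (m + 1) q).1 (po a (up5 b m s t) (m + 2) q).1 (po a (up5 b m s t) (m + 3) q).1
        (po a (up5 b m s t) (m + 5) q) ∂un5
      = ∫⁻ t, Φ (X1 t) (X2 t) (X3 t) (X5 t, X4 t) ∂un5 := by
        refine lintegral_congr fun t => ?_
        obtain ⟨e1, e2, e3, -, e5⟩ := hpo t
        rw [e1, e2, e3, e5]
    _ = _ := un5_nest _ hmeas
    _ ≤ _ := H fun x1 x2 x3 x4 x5 => Φ x1 x2 x3 (x5, x4)
    _ = ENNReal.ofReal (A ^ 25 / ρ ^ 5) * ∫⁻ w in Icc (c5 - R) (c5 + R) ×ˢ Icc (c4 - R) (c4 + R),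
        ∫⁻ x₁ in Icc (c1 - R) (c1 + R), ∫⁻ x₂ in Icc (c2 - R) (c2 + R),
          ∫⁻ x₃ in Icc (c3 - R) (c3 + R), Φ x₁ x₂ x₃ w := by
        rw [swap5 (fun x1 x2 x3 x4 x5 => Φ x1 x2 x3 (x5, x4))
          (hΦ.comp (by fun_prop : Measurable fun p : ℝ × ℝ × ℝ × ℝ × ℝ =>
            (p.1, p.2.1, p.2.2.1, (p.2.2.2.2, p.2.2.2.1)))), Measure.prod_restrict, ← Measure.volume_eq_prod]
        congr 1
        rw [← ENNReal.ofReal_pow (by positivity)]
        congr 1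
        rw [hs']
        field_simp
    _ ≤ _ := by
        refine mul_le_mul_right ?_ _
        have hsub : ∀ c : ℝ, Icc (c - R) (c + R) ⊆ Icc (c - ρ / 2) (c + ρ / 2) := fun c x hx =>
          ⟨by have := hx.1; rw [hR'] at this; linarith, by have := hx.2; rw [hR'] at this; linarith⟩
        have hsub2 : Icc (c5 - R) (c5 + R) ×ˢ Icc (c4 - R) (c4 + R) ⊆ sqo (c5 - R, c4 - R) ρ := by
          intro z hz
          have h5 := hz.1
          have h4 := hz.2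
          have h6 : 2 * R < ρ := by rw [hR']; linarith
          exact ⟨⟨h5.1, by have := h5.2; simp only; linarith⟩, ⟨h4.1, by have := h4.2; simp only; linarith⟩⟩
        refine (lintegral_mono fun w => ?_).trans (lintegral_mono_set hsub2)
        refine (lintegral_mono_set (hsub c1)).trans (lintegral_mono fun x1 => ?_)
        refine (lintegral_mono_set (hsub c2)).trans (lintegral_mono fun x2 => ?_)
        exact lintegral_mono_set (hsub c3)

end Pool.Agent.Helper44.AF
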