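import Pool.Agent.Helper44.AF.Den5

/-! # Project AF: the law of five independent numbers as nested integrals; exchange of integrals -/

set_option autoImplicit false
open MeasureTheory Real Set Filter Topology
open scoped ENNReal

namespace Pool.Agent.Helper44.AF

open Pool.Agent.Helper18.UC (nn LL sqo)
open Pool.Agent.Helper95.AF

instance : IsProbabilityMeasure un := ⟨by unfold un; simp⟩

theorem meas_cons (n : ℕ) : Measurable fun p : ℝ × (Fin n → ℝ) => (Fin.cons p.1 p.2 : Fin (n + 1) → ℝ) := by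
  refine measurable_pi_iff.2 fun i => ?_
  refine Fin.cases ?_ (fun j => ?_) i
  · simpa using measurable_fst
  · simp only [Fin.cons_succ]
    exact (measurable_pi_apply j).comp measurable_snd

theorem pi_cons {n : ℕ} (f : (Fin (n + 1) → ℝ) → ℝ≥0∞) (hf : Measurable f) :
    ∫⁻ t, f t ∂(Measure.pi fun _ : Fin (n + 1) => un) =
      ∫⁻ x, ∫⁻ t, f (Fin.cons x t) ∂(Measure.pi fun _ : Fin n => un) ∂un := by
  have h1 := (measurePreserving_piFinSuccAbove (fun _ : Fin (n + 1) => un) 0).symm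
  rw [← h1.lintegral_comp hf]
  refine (lintegral_prod _ (hf.comp h1.measurable).aemeasurable).trans ?_
  refine lintegral_congr fun x => lintegral_congr fun t => ?_
  show f _ = _
  congr 1
  simp [MeasurableEquiv.piFinSuccAbove, Fin.insertNthEquiv]

theorem un5_nest (f : (Fin 5 → ℝ) → ℝ≥0∞) (hf : Measurable f) :
    ∫⁻ t, f t ∂un5 = ∫⁻ t0, ∫⁻ t1, ∫⁻ t2, ∫⁻ t3, ∫⁻ t4, f ![t0, t1, t2, t3, t4] ∂un ∂un ∂un ∂un ∂un := by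
  have hc : ∀ (n : ℕ) (x : ℝ), Measurable fun t : Fin n → ℝ => (Fin.cons x t : Fin (n + 1) → ℝ) := fun n x =>
    (meas_cons n).comp measurable_prodMk_left
  unfold un5
  rw [pi_cons f hf]
  refine lintegral_congr fun t0 => ?_
  have h1 := hf.comp (hc 4 t0)
  refine (pi_cons _ h1).trans ?_
  refine lintegral_congr fun t1 => ?_
  have h2 := h1.comp (hc 3 t1)
  refine (pi_cons _ h2).trans ?_
  refine lintegral_congr fun t2 => ?_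
  have h3 := h2.comp (hc 2 t2)
  refine (pi_cons _ h3).trans ?_
  refine lintegral_congr fun t3 => ?_
  have h4 := h3.comp (hc 1 t3)
  refine (pi_cons _ h4).trans ?_
  refine lintegral_congr fun t4 => ?_
  rw [Measure.pi_of_empty, lintegral_dirac]
  rfl

/-- the last two variables outside -/
theorem swap5 {μ1 μ2 μ3 μ4 μ5 : Measure ℝ} [SFinite μ1] [SFinite μ2] [SFinite μ3] [SFinite μ4] [SFinite μ5]
    (F : ℝ → ℝ → ℝ → ℝ → ℝ → ℝ≥0∞)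
    (hF : Measurable fun p : ℝ × ℝ × ℝ × ℝ × ℝ => F p.1 p.2.1 p.2.2.1 p.2.2.2.1 p.2.2.2.2) :
    ∫⁻ x1, ∫⁻ x2, ∫⁻ x3, ∫⁻ x4, ∫⁻ x5, F x1 x2 x3 x4 x5 ∂μ5 ∂μ4 ∂μ3 ∂μ2 ∂μ1 =
      ∫⁻ z, ∫⁻ x1, ∫⁻ x2, ∫⁻ x3, F x1 x2 x3 z.2 z.1 ∂μ3 ∂μ2 ∂μ1 ∂(μ5.prod μ4) := by
  have m1 : Measurable fun q : ℝ × ℝ × ℝ × (ℝ × ℝ) => F q.1 q.2.1 q.2.2.1 q.2.2.2.2 q.2.2.2.1 :=
    hF.comp (by fun_prop : Measurable fun q : ℝ × ℝ × ℝ × (ℝ × ℝ) => (q.1, q.2.1, q.2.2.1, q.2.2.2.2, q.2.2.2.1))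
  have h1 : ∀ x1 x2 x3 : ℝ, ∫⁻ x4, ∫⁻ x5, F x1 x2 x3 x4 x5 ∂μ5 ∂μ4 = ∫⁻ z, F x1 x2 x3 z.2 z.1 ∂(μ5.prod μ4) := by
    intro x1 x2 x3
    rw [lintegral_prod_symm (fun z : ℝ × ℝ => F x1 x2 x3 z.2 z.1)
      (m1.comp (by fun_prop : Measurable fun z : ℝ × ℝ => (x1, x2, x3, z))).aemeasurable]
  have h2 : ∀ x1 x2 : ℝ, ∫⁻ x3, ∫⁻ z, F x1 x2 x3 z.2 z.1 ∂(μ5.prod μ4) ∂μ3 =
      ∫⁻ z, ∫⁻ x3, F x1 x2 x3 z.2 z.1 ∂μ3 ∂(μ5.prod μ4) := by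
    intro x1 x2
    exact lintegral_lintegral_swap
      (m1.comp (by fun_prop : Measurable fun z : ℝ × (ℝ × ℝ) => (x1, x2, z))).aemeasurable
  have m3 : Measurable fun q : ℝ × ℝ × (ℝ × ℝ) => ∫⁻ x3, F q.1 q.2.1 x3 q.2.2.2 q.2.2.1 ∂μ3 := by
    refine Measurable.lintegral_prod_right' (f := fun q : (ℝ × ℝ × (ℝ × ℝ)) × ℝ => F q.1.1 q.1.2.1 q.2 q.1.2.2.2 q.1.2.2.1) ?_
    exact m1.comp (by fun_prop : Measurable fun q : (ℝ × ℝ × (ℝ × ℝ)) × ℝ => (q.1.1, q.1.2.1, q.2, q.1.2.2))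
  have h3 : ∀ x1 : ℝ, ∫⁻ x2, ∫⁻ z, ∫⁻ x3, F x1 x2 x3 z.2 z.1 ∂μ3 ∂(μ5.prod μ4) ∂μ2 =
      ∫⁻ z, ∫⁻ x2, ∫⁻ x3, F x1 x2 x3 z.2 z.1 ∂μ3 ∂μ2 ∂(μ5.prod μ4) := by
    intro x1
    exact lintegral_lintegral_swap
      (m3.comp (by fun_prop : Measurable fun z : ℝ × (ℝ × ℝ) => (x1, z))).aemeasurable
  have m2 : Measurable fun q : ℝ × (ℝ × ℝ) => ∫⁻ x2, ∫⁻ x3, F q.1 x2 x3 q.2.2 q.2.1 ∂μ3 ∂μ2 := by
    refine Measurable.lintegral_prod_right' (f := fun q : (ℝ × (ℝ × ℝ)) × ℝ => ∫⁻ x3, F q.1.1 q.2 x3 q.1.2.2 q.1.2.1 ∂μ3) ?_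
    exact m3.comp (by fun_prop : Measurable fun q : (ℝ × (ℝ × ℝ)) × ℝ => (q.1.1, q.2, q.1.2))
  simp_rw [h1, h2, h3]
  exact lintegral_lintegral_swap m2.aemeasurable

end Pool.Agent.Helper44.AF
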